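import Pool.Agent.N522.PES.Main

/-!
# The existence of `A_f` is a potential property
-/

open Pool.Agent.N522.PES

/-- Let `f` be a Hilbert newform of parallel weight two over a totally real field `F`. (i) `A_f`
exists if and only if, for some finite extension `F'/F`, the restriction of `ρ_f` to `G_{F'}` occurs
in an abelian variety over `F'`. (ii) If `ρ_f` and `ρ_g` are potentially isomorphic, for newforms
over possibly different totally real fields, `A_f` exists if and only if `A_g` does. (iii) If `F/F₀`
is a solvable Galois extension of totally real fields and all conjugates of `f` over `F₀` are twists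
of `f`, then there is a newform `g` over `F₀` potentially equivalent to `f`; `A_f` exists if
`[F₀ : ℚ]` is odd or `g` is a discrete series at a finite place. -/
theorem Pool.Agent.Results.MP_6cbef8_nt.PotentialCriterion.result
    (T : Theory) (hT : Facts T) (hM : ModularFacts T) :
    (∀ (F : T.Fld) (f : T.Form F), T.Real F →
      (HasA f ↔ ∃ (F' : T.Fld) (i : T.Ext F F') (B : T.AV F'), T.Occ i f B)) ∧
    (∀ (F₁ F₂ : T.Fld) (f : T.Form F₁) (g : T.Form F₂), T.Real F₁ → PotEquiv f g → HasA g →
      HasA f) ∧
    (∀ (F₀ F : T.Fld) (i : T.Ext F₀ F) (f : T.Form F), T.Real F₀ → T.Real F → T.Solvable i →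
      T.TwistInvariant i f → (T.Odd F₀ → HasA f) ∧
        ∃ g : T.Form F₀, PotEquiv f g ∧ (HasA g → HasA f) ∧ (T.Discrete g → HasA f)) :=
  ⟨fun _ f hF => hasA_iff hT hF f, fun _ _ f g h1 h hg => hasA_of_potEquiv hT h1 f g h hg,
    fun _ _ i f h0 hF hs ht => hasA_of_twistInvariant hT hM i f h0 hF hs ht⟩
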